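import Pool.Agent.Helper3K9.ZF.Stm3

/-!
# The lemma of Goursat
-/

set_option autoImplicit false
set_option linter.unusedSectionVars false

open CategoryTheory Limits MonoidalCategory Polynomial

universe v u w

namespace Pool.Agent.Helper86K9.ZF

open Pool.Agent.Y112.SR
open Pool.Agent.Helper3K9.ZF

namespace NcbL

variable {K : Type*} [Field K] [CharZero K] {V : Type*} [AddCommGroup V] [Module K V]

/-- the projections -/
noncomputable def p0 (σ : V →ₗ[K] V) : V →ₗ[K] V := (2 : K)⁻¹ • (LinearMap.id + σ)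

noncomputable def p1 (σ : V →ₗ[K] V) : V →ₗ[K] V := (2 : K)⁻¹ • (LinearMap.id - σ)

theorem p0_add_p1 (σ : V →ₗ[K] V) (x : V) : p0 σ x + p1 σ x = x := by
  simp only [p0, p1, LinearMap.smul_apply, LinearMap.add_apply, LinearMap.sub_apply,
    LinearMap.id_apply]
  rw [← smul_add, add_add_sub_cancel, ← two_smul K x, smul_smul, inv_mul_cancel₀ two_ne_zero,
    one_smul]

theorem sig_p0 {σ : V →ₗ[K] V} (hσ : ∀ x, σ (σ x) = x) (x : V) : σ (p0 σ x) = p0 σ x := by
  simp only [p0, LinearMap.smul_apply, LinearMap.add_apply, LinearMap.id_apply, map_smul, map_add,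
    hσ]
  rw [add_comm]

theorem sig_p1 {σ : V →ₗ[K] V} (hσ : ∀ x, σ (σ x) = x) (x : V) : σ (p1 σ x) = -p1 σ x := by
  simp only [p1, LinearMap.smul_apply, LinearMap.sub_apply, LinearMap.id_apply, map_smul, map_sub,
    hσ]
  rw [← smul_neg, neg_sub]

theorem p0_even {σ : V →ₗ[K] V} {x : V} (h : σ x = x) : p0 σ x = x := by
  simp only [p0, LinearMap.smul_apply, LinearMap.add_apply, LinearMap.id_apply, h]
  rw [← two_smul K x, smul_smul, inv_mul_cancel₀ two_ne_zero, one_smul]

theorem p0_odd {σ : V →ₗ[K] V} {x : V} (h : σ x = -x) : p0 σ x = 0 := by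
  simp only [p0, LinearMap.smul_apply, LinearMap.add_apply, LinearMap.id_apply, h]
  rw [add_neg_cancel, smul_zero]

theorem p1_even {σ : V →ₗ[K] V} {x : V} (h : σ x = x) : p1 σ x = 0 := by
  simp only [p1, LinearMap.smul_apply, LinearMap.sub_apply, LinearMap.id_apply, h]
  rw [sub_self, smul_zero]

theorem p1_odd {σ : V →ₗ[K] V} {x : V} (h : σ x = -x) : p1 σ x = x := by
  simp only [p1, LinearMap.smul_apply, LinearMap.sub_apply, LinearMap.id_apply, h]
  rw [sub_neg_eq_add, ← two_smul K x, smul_smul, inv_mul_cancel₀ two_ne_zero, one_smul]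

theorem p0_comm {σ F : V →ₗ[K] V} (h : ∀ x, σ (F x) = F (σ x)) (x : V) :
    p0 σ (F x) = F (p0 σ x) := by
  simp only [p0, LinearMap.smul_apply, LinearMap.add_apply, LinearMap.id_apply, map_smul, map_add,
    h]

theorem p1_comm {σ F : V →ₗ[K] V} (h : ∀ x, σ (F x) = F (σ x)) (x : V) :
    p1 σ (F x) = F (p1 σ x) := by
  simp only [p1, LinearMap.smul_apply, LinearMap.sub_apply, LinearMap.id_apply, map_smul, map_sub,
    h]

/-- the two maps to the quotients -/
noncomputable def g (p : V →ₗ[K] V) (N E : Submodule K V) :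
    N →ₗ[K] ((N.map p) ⧸ ((N ⊓ E).submoduleOf (N.map p))) :=
  ((N ⊓ E).submoduleOf (N.map p)).mkQ ∘ₗ
    LinearMap.codRestrict (N.map p) (p.domRestrict N) (fun x => Submodule.mem_map_of_mem x.2)

theorem g_apply (p : V →ₗ[K] V) (N E : Submodule K V) (x : N) :
    g p N E x = Submodule.Quotient.mk ⟨p x, Submodule.mem_map_of_mem x.2⟩ := rfl

theorem g_surj (p : V →ₗ[K] V) (N E : Submodule K V) : Function.Surjective (g p N E) := by
  intro y
  obtain ⟨⟨y, hy⟩, rfl⟩ := Submodule.Quotient.mk_surjective _ y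
  obtain ⟨x, hx, rfl⟩ := Submodule.mem_map.1 hy
  exact ⟨⟨x, hx⟩, rfl⟩

theorem mem_ker_g (p : V →ₗ[K] V) (N E : Submodule K V) (hE : ∀ x, p x ∈ E) (x : N) :
    x ∈ LinearMap.ker (g p N E) ↔ p x ∈ N := by
  rw [LinearMap.mem_ker, g_apply, Submodule.Quotient.mk_eq_zero]
  constructor
  · intro h
    exact (Submodule.mem_inf.1 h).1
  · intro h
    exact Submodule.mem_inf.2 ⟨h, hE _⟩

end NcbL

open NcbL

theorem ncb : S_NCB.{v, u, w} := by
  intro C _ _ _ _ _ K _ _ R M hNC N hN
  set σ : R.H.obj M →ₗ[K] R.H.obj M := (R.par M).hom with hσd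
  have hσ : ∀ x, σ (σ x) = x := fun x => congrArg (fun g => g.hom x) (R.par_sq M)
  have hc : ∀ (f : M ⟶ M) (x : R.H.obj M), σ ((R.H.map f).hom x) = (R.H.map f).hom (σ x) :=
    fun f x => congrArg (fun g => g.hom x) (R.par_natural f)
  have hev : ∀ x : R.H.obj M, x ∈ evenPart R M ↔ σ x = x := by
    intro x
    rw [evenPart, LinearMap.mem_ker, LinearMap.sub_apply, LinearMap.id_apply, sub_eq_zero]
  have hod : ∀ x : R.H.obj M, x ∈ oddPart R M ↔ σ x = -x := by
    intro x
    rw [oddPart, LinearMap.mem_ker, LinearMap.add_apply, LinearMap.id_apply,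
      add_eq_zero_iff_eq_neg]
  have h0E : ∀ x, p0 σ x ∈ evenPart R M := fun x => (hev _).2 (sig_p0 hσ x)
  have h1O : ∀ x, p1 σ x ∈ oddPart R M := fun x => (hod _).2 (sig_p1 hσ x)
  have hker : LinearMap.ker (g (p0 σ) N (evenPart R M)) = LinearMap.ker (g (p1 σ) N (oddPart R M)) := by
    ext x
    rw [mem_ker_g _ _ _ h0E, mem_ker_g _ _ _ h1O]
    have h := p0_add_p1 σ (x : R.H.obj M)
    constructor
    · intro h1
      have : p1 σ (x : R.H.obj M) = x - p0 σ x := by rw [eq_sub_iff_add_eq, add_comm]; exact h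
      rw [this]
      exact N.sub_mem x.2 h1
    · intro h1
      have : p0 σ (x : R.H.obj M) = x - p1 σ x := by rw [eq_sub_iff_add_eq]; exact h
      rw [this]
      exact N.sub_mem x.2 h1
  set φ : (N.map (p0 σ) ⧸ (N ⊓ evenPart R M).submoduleOf (N.map (p0 σ))) ≃ₗ[K]
      (N.map (p1 σ) ⧸ (N ⊓ oddPart R M).submoduleOf (N.map (p1 σ))) :=
    ((g (p0 σ) N (evenPart R M)).quotKerEquivOfSurjective (g_surj _ _ _)).symm.trans
      ((Submodule.quotEquivOfEq _ _ hker).trans
        ((g (p1 σ) N (oddPart R M)).quotKerEquivOfSurjective (g_surj _ _ _))) with hφ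
  have hφg : ∀ n : N, φ (g (p0 σ) N (evenPart R M) n) = g (p1 σ) N (oddPart R M) n := by
    intro n
    rw [hφ]
    simp only [LinearEquiv.trans_apply]
    have h1 : ((g (p0 σ) N (evenPart R M)).quotKerEquivOfSurjective (g_surj _ _ _)).symm
        (g (p0 σ) N (evenPart R M) n) = Submodule.Quotient.mk n := by
      rw [LinearEquiv.symm_apply_eq]
      rfl
    rw [h1]
    rfl
  have key := hNC (N ⊓ evenPart R M) (N.map (p0 σ)) (N ⊓ oddPart R M) (N.map (p1 σ)) ?_ ?_ ?_ ?_
    ?_ ?_ ?_ ?_ φ ?_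
  · intro x hx
    have h1 : p0 σ x ∈ N := by
      have h2 : p0 σ x ∈ N.map (p0 σ) := Submodule.mem_map_of_mem hx
      rw [← key] at h2
      exact (Submodule.mem_inf.1 h2).1
    have h3 : σ x = p0 σ x + p0 σ x - x := by
      rw [← two_smul K (p0 σ x)]
      simp only [p0, LinearMap.smul_apply, LinearMap.add_apply, LinearMap.id_apply]
      rw [smul_smul, mul_inv_cancel₀ two_ne_zero, one_smul, add_sub_cancel_left]
    show σ x ∈ N
    rw [h3]
    exact N.sub_mem (N.add_mem h1 h1) hx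
  · intro f x hx
    have := Submodule.mem_inf.1 hx
    exact Submodule.mem_inf.2 ⟨hN f x this.1, hom_even R f x this.2⟩
  · intro f x hx
    obtain ⟨n, hn, rfl⟩ := Submodule.mem_map.1 hx
    rw [← p0_comm (hc f)]
    exact Submodule.mem_map_of_mem (hN f n hn)
  · intro f x hx
    have := Submodule.mem_inf.1 hx
    exact Submodule.mem_inf.2 ⟨hN f x this.1, hom_odd R f x this.2⟩
  · intro f x hx
    obtain ⟨n, hn, rfl⟩ := Submodule.mem_map.1 hx
    rw [← p1_comm (hc f)]
    exact Submodule.mem_map_of_mem (hN f n hn)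
  · intro x hx
    have := Submodule.mem_inf.1 hx
    rw [← p0_even ((hev x).1 this.2)]
    exact Submodule.mem_map_of_mem this.1
  · intro x hx
    obtain ⟨n, hn, rfl⟩ := Submodule.mem_map.1 hx
    exact h0E n
  · intro x hx
    have := Submodule.mem_inf.1 hx
    rw [← p1_odd ((hod x).1 this.2)]
    exact Submodule.mem_map_of_mem this.1
  · intro x hx
    obtain ⟨n, hn, rfl⟩ := Submodule.mem_map.1 hx
    exact h1O n
  · intro f x x' y y' hx' hy' hxy
    obtain ⟨n, hn, hnx⟩ := Submodule.mem_map.1 x.2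
    have e1 : (Submodule.Quotient.mk x : N.map (p0 σ) ⧸
        (N ⊓ evenPart R M).submoduleOf (N.map (p0 σ))) =
        g (p0 σ) N (evenPart R M) ⟨n, hn⟩ := by
      rw [g_apply]
      congr 1
      exact Subtype.ext hnx.symm
    rw [e1, hφg, g_apply, Submodule.Quotient.eq] at hxy
    have h3 : p1 σ n - (y : R.H.obj M) ∈ N := (Submodule.mem_inf.1 hxy).1
    have h4 : (x : R.H.obj M) + y ∈ N := by
      have h5 : (x : R.H.obj M) + y = n - (p1 σ n - y) := by
        rw [← hnx]
        nth_rewrite 2 [← p0_add_p1 σ n]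
        abel
      rw [h5]
      exact N.sub_mem hn h3
    have hxE : (x : R.H.obj M) ∈ evenPart R M := by rw [← hnx]; exact h0E n
    have hyO : (y : R.H.obj M) ∈ oddPart R M := by
      obtain ⟨n', -, hn'⟩ := Submodule.mem_map.1 y.2
      rw [← hn']
      exact h1O n'
    have hx'E : σ (x' : R.H.obj M) = x' := (hev _).1 (by rw [hx']; exact hom_even R f _ hxE)
    have hy'O : σ (y' : R.H.obj M) = -(y' : R.H.obj M) :=
      (hod _).1 (by rw [hy']; exact hom_odd R f _ hyO)
    have hmem : (x' : R.H.obj M) + y' ∈ N := by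
      rw [hx', hy', ← map_add]
      exact hN f _ h4
    have hp0 : p0 σ ((x' : R.H.obj M) + y') = x' := by
      rw [map_add, p0_even hx'E, p0_odd hy'O, add_zero]
    have hp1 : p1 σ ((x' : R.H.obj M) + y') = y' := by
      rw [map_add, p1_even hx'E, p1_odd hy'O, zero_add]
    have e2 : (Submodule.Quotient.mk x' : N.map (p0 σ) ⧸
        (N ⊓ evenPart R M).submoduleOf (N.map (p0 σ))) =
        g (p0 σ) N (evenPart R M) ⟨(x' : R.H.obj M) + y', hmem⟩ := by
      rw [g_apply]
      congr 1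
      exact Subtype.ext hp0.symm
    rw [e2, hφg, g_apply]
    congr 1
    exact Subtype.ext hp1

end Pool.Agent.Helper86K9.ZF
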